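import Pool.Agent.H43.ConstRate

set_option autoImplicit false

namespace Pool.Agent.Results.MP_e3a9f0_pr.NoConstRate

/-- No probability distribution with full support on the finite subsets of the positive
integers has constant rate. -/
theorem result (f : Finset ℕ+ → ℝ) (hpos : ∀ x, 0 < f x) (hsum : HasSum f 1) (α : ℝ) :
    ∃ x : Finset ℕ+, f x ≠ α * ∑' y : {y : Finset ℕ+ // x ⊆ y}, f y := by
  by_contra h
  push Not at h
  exact Pool.Agent.H43.ConstRate.no_const_rate f hpos hsum α h

end Pool.Agent.Results.MP_e3a9f0_pr.NoConstRate
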